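import Mathlib

/-!
# Infinite boundary orbits of torsion-free self-similar groups (helper file, not a hand-in)

For finite automata the result is known: D'Angeli, Francoeur, Rodaro, Wächter, Infinite automaton
semigroups and groups have infinite orbits (J. Algebra 2020).

Every nontrivial torsion-free group generated by an invertible Mealy automaton over a finite alphabet
has an infinite orbit on the infinite words; in particular this holds for the automata with an
accessible sink which generate a nontrivial free group.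

Proof: let `D ξ n` be the group of the sections at the initial word `ξ 0 ... ξ (n-1)` of the elements fixing
it, and `Z` the set of the `ξ` with all `D ξ n` nontrivial. If all orbits are finite, a Baire
category argument gives a cylinder meeting `Z` on which the points of `Z` have bounded orbits; then a
power of every element of the section group of the cylinder fixes the corresponding part of `Z`, hence
has bounded periods on all words, hence is trivial because the group is torsion-free.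
-/

set_option autoImplicit false

namespace Pool.Agent.Helper367_IO

/-- A Mealy automaton with set of states `Q` and alphabet `X`: the transition map `next` and the
output map `out`. -/
structure Mealy (Q X : Type) where
  next : Q → X → Q
  out : Q → X → X

/-- The state reached from `q` after reading the letters `ξ 0, ..., ξ (n - 1)`. -/
def Mealy.run {Q X : Type} (M : Mealy Q X) (q : Q) (ξ : ℕ → X) : ℕ → Q
  | 0 => q
  | n + 1 => M.next (M.run q ξ n) (ξ n)

/-- The action of the state `q` on infinite words: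
`q ∘ (x w) = (q ∘ x) ((q · x) ∘ w)`. -/
def Mealy.act {Q X : Type} (M : Mealy Q X) (q : Q) (ξ : ℕ → X) : ℕ → X :=
  fun n => M.out (M.run q ξ n) (ξ n)

/-- All output maps are permutations of the alphabet. -/
def Mealy.Invertible {Q X : Type} (M : Mealy Q X) : Prop := ∀ q, Function.Bijective (M.out q)

/-- The group generated by the bijections of the set of infinite words given by the states. -/
def Mealy.group {Q X : Type} (M : Mealy Q X) : Subgroup (Equiv.Perm (ℕ → X)) :=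
  Subgroup.closure {g | ∃ q : Q, ⇑g = M.act q}

/-- `e` is a sink-state. -/
def Mealy.IsSink {Q X : Type} (M : Mealy Q X) (e : Q) : Prop :=
  ∀ a : X, M.next e a = e ∧ M.out e a = a

/-- The class `S_a`: invertible with a sink-state accessible from every state. -/
def Mealy.InSa {Q X : Type} (M : Mealy Q X) : Prop :=
  M.Invertible ∧ ∃ e : Q, M.IsSink e ∧ ∀ q : Q, ∃ w : List X, w.foldl M.next q = e

/-- The orbit of the infinite word `ξ` (the vertex set of its Schreier graph). -/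
def Mealy.orbit {Q X : Type} (M : Mealy Q X) (ξ : ℕ → X) : Set (ℕ → X) :=
  {η | ∃ g ∈ M.group, η = g ξ}

section words

variable {X : Type}

/-- the word `x ξ` -/
def cons (x : X) (ξ : ℕ → X) : ℕ → X
  | 0 => x
  | n + 1 => ξ n

theorem cons_inj {x y : X} {ξ η : ℕ → X} (h : cons x ξ = cons y η) : x = y ∧ ξ = η := by
  refine ⟨congrFun h 0, ?_⟩
  funext n
  exact congrFun h (n + 1)

theorem cons_eta (ξ : ℕ → X) : cons (ξ 0) (fun i => ξ (i + 1)) = ξ := by
  funext n
  cases n <;> rfl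

/-- the first `n` letters of `ξ` followed by `ζ` -/
def spl (n : ℕ) (ξ ζ : ℕ → X) : ℕ → X := fun i => if i < n then ξ i else ζ (i - n)

theorem spl_zero (ξ ζ : ℕ → X) : spl 0 ξ ζ = ζ := by
  funext i
  simp [spl]

theorem spl_succ (n : ℕ) (ξ ζ : ℕ → X) : spl (n + 1) ξ ζ = spl n ξ (cons (ξ n) ζ) := by
  funext i
  unfold spl
  rcases lt_trichotomy i n with h | h | h
  · rw [if_pos (by omega), if_pos h]
  · subst h
    rw [if_pos (by omega), if_neg (by omega), Nat.sub_self]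
    rfl
  · rw [if_neg (by omega), if_neg (by omega)]
    obtain ⟨k, hk⟩ : ∃ k, i = n + 1 + k := ⟨i - (n + 1), by omega⟩
    subst hk
    have e1 : n + 1 + k - (n + 1) = k := by omega
    have e2 : n + 1 + k - n = k + 1 := by omega
    rw [e1, e2]
    rfl

theorem spl_lt {n i : ℕ} (h : i < n) (ξ ζ : ℕ → X) : spl n ξ ζ i = ξ i := if_pos h

theorem spl_add (n i : ℕ) (ξ ζ : ℕ → X) : spl n ξ ζ (n + i) = ζ i := by
  unfold spl
  rw [if_neg (by omega), Nat.add_sub_cancel_left]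

theorem spl_inj {n : ℕ} {ξ ξ' ζ ζ' : ℕ → X} (h : spl n ξ ζ = spl n ξ' ζ') :
    (∀ i < n, ξ i = ξ' i) ∧ ζ = ζ' := by
  constructor
  · intro i hi
    have := congrFun h i
    rwa [spl_lt hi, spl_lt hi] at this
  · funext i
    have := congrFun h (n + i)
    rwa [spl_add, spl_add] at this

theorem spl_congr {n : ℕ} {ξ ξ' : ℕ → X} (h : ∀ i < n, ξ i = ξ' i) (ζ : ℕ → X) :
    spl n ξ ζ = spl n ξ' ζ := by
  funext i
  unfold spl
  split_ifs with hi
  · exact h i hi
  · rfl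

theorem spl_shift (n : ℕ) (ξ : ℕ → X) : spl n ξ (fun i => ξ (n + i)) = ξ := by
  funext i
  unfold spl
  split_ifs with hi
  · rfl
  · change ξ (n + (i - n)) = ξ i
    congr 1
    omega

end words

section action

variable {Q X : Type} (M : Mealy Q X)

theorem run_cons (q : Q) (x : X) (ζ : ℕ → X) (n : ℕ) :
    M.run q (cons x ζ) (n + 1) = M.run (M.next q x) ζ n := by
  induction n with
  | zero => rfl
  | succ n ih =>
    change M.next (M.run q (cons x ζ) (n + 1)) (ζ n) = M.next (M.run (M.next q x) ζ n) (ζ n)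
    rw [ih]

theorem act_cons (q : Q) (x : X) (ζ : ℕ → X) :
    M.act q (cons x ζ) = cons (M.out q x) (M.act (M.next q x) ζ) := by
  funext n
  cases n with
  | zero => rfl
  | succ n =>
    change M.out (M.run q (cons x ζ) (n + 1)) (ζ n) = M.out (M.run (M.next q x) ζ n) (ζ n)
    rw [run_cons]

theorem act_injective (hM : M.Invertible) (q : Q) : Function.Injective (M.act q) := by
  intro ξ η h
  have key : ∀ n, M.run q ξ n = M.run q η n ∧ ∀ i < n, ξ i = η i := by
    intro n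
    induction n with
    | zero => exact ⟨rfl, fun i hi => absurd hi (Nat.not_lt_zero i)⟩
    | succ n ih =>
      have h1 : M.out (M.run q ξ n) (ξ n) = M.out (M.run q η n) (η n) := congrFun h n
      rw [← ih.1] at h1
      have h2 : ξ n = η n := (hM _).1 h1
      refine ⟨?_, fun i hi => ?_⟩
      · change M.next (M.run q ξ n) (ξ n) = M.next (M.run q η n) (η n)
        rw [ih.1, h2]
      · rcases Nat.lt_succ_iff_lt_or_eq.1 hi with h3 | h3
        · exact ih.2 i h3
        · rw [h3, h2]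
  funext n
  exact (key (n + 1)).2 n (Nat.lt_succ_self n)

theorem act_surjective (hM : M.Invertible) (q : Q) : Function.Surjective (M.act q) := by
  intro η
  choose inv hinv using fun q => (hM q).2
  let s : ℕ → Q := fun n => Nat.rec q (fun n s => M.next s (inv s (η n))) n
  refine ⟨fun n => inv (s n) (η n), ?_⟩
  have hs : ∀ n, M.run q (fun n => inv (s n) (η n)) n = s n := by
    intro n
    induction n with
    | zero => rfl
    | succ n ih =>
      change M.next (M.run q (fun n => inv (s n) (η n)) n) (inv (s n) (η n)) =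
        M.next (s n) (inv (s n) (η n))
      rw [ih]
  funext n
  change M.out (M.run q (fun n => inv (s n) (η n)) n) (inv (s n) (η n)) = η n
  rw [hs]
  exact hinv _ _

theorem act_bijective (hM : M.Invertible) (q : Q) : Function.Bijective (M.act q) :=
  ⟨act_injective M hM q, act_surjective M hM q⟩

end action

section selfsimilar

variable {X : Type}

/-- self-similar groups of permutations of the infinite words -/
def SS (G : Subgroup (Equiv.Perm (ℕ → X))) : Prop :=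
  ∀ g ∈ G, ∀ x : X, ∃ y : X, ∃ h ∈ G, ∀ ζ : ℕ → X, g (cons x ζ) = cons y (h ζ)

theorem group_SS {Q : Type} (M : Mealy Q X) (hM : M.Invertible) : SS M.group := by
  intro g hg
  refine Subgroup.closure_induction (p := fun g _ => ∀ x : X, ∃ y : X, ∃ h ∈ M.group,
    ∀ ζ : ℕ → X, g (cons x ζ) = cons y (h ζ)) ?_ ?_ ?_ ?_ hg
  · rintro g ⟨q, hq⟩ x
    refine ⟨M.out q x, Equiv.ofBijective _ (act_bijective M hM (M.next q x)),
      Subgroup.subset_closure ⟨M.next q x, rfl⟩, fun ζ => ?_⟩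
    rw [hq]
    exact act_cons M q x ζ
  · intro x
    exact ⟨x, 1, one_mem _, fun ζ => rfl⟩
  · intro g₁ g₂ _ _ h₁ h₂ x
    obtain ⟨y, a, ha, hy⟩ := h₂ x
    obtain ⟨z, b, hb, hz⟩ := h₁ y
    refine ⟨z, b * a, mul_mem hb ha, fun ζ => ?_⟩
    rw [Equiv.Perm.mul_apply, hy, hz, Equiv.Perm.mul_apply]
  · intro g _ hg x
    have e0 : g (g⁻¹ (cons x (fun _ => x))) = cons x (fun _ => x) := by simp
    obtain ⟨y, a, ha, hy⟩ := hg ((g⁻¹ (cons x (fun _ => x))) 0)
    rw [← cons_eta (g⁻¹ (cons x (fun _ => x))), hy] at e0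
    have hxy : y = x := (cons_inj e0).1
    subst hxy
    refine ⟨(g⁻¹ (cons y (fun _ => y))) 0, a⁻¹, inv_mem ha, fun ζ => ?_⟩
    rw [Equiv.Perm.inv_eq_iff_eq, hy]
    simp

variable {G : Subgroup (Equiv.Perm (ℕ → X))}

theorem SSn (hG : SS G) (n : ℕ) : ∀ g ∈ G, ∀ ξ : ℕ → X, ∃ ξ' : ℕ → X, ∃ h ∈ G,
    ∀ ζ : ℕ → X, g (spl n ξ ζ) = spl n ξ' (h ζ) := by
  intro g hg ξ
  induction n with
  | zero => exact ⟨ξ, g, hg, fun ζ => by rw [spl_zero, spl_zero]⟩
  | succ n ih =>
    obtain ⟨ξ', h, hh, e⟩ := ih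
    obtain ⟨y, k, hk, e'⟩ := hG h hh (ξ n)
    refine ⟨Function.update ξ' n y, k, hk, fun ζ => ?_⟩
    rw [spl_succ, e, e', spl_succ, Function.update_self]
    apply spl_congr
    intro i hi
    rw [Function.update_of_ne (by omega)]

theorem agree (hG : SS G) {g : Equiv.Perm (ℕ → X)} (hg : g ∈ G) {n : ℕ} {ξ η : ℕ → X}
    (h : ∀ i < n, η i = ξ i) : ∀ i < n, g η i = g ξ i := by
  obtain ⟨ξ', k, hk, e⟩ := SSn hG n g hg ξ
  intro i hi
  have h1 : η = spl n ξ (fun i => η (n + i)) := by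
    conv_lhs => rw [← spl_shift n η]
    exact spl_congr h _
  have h2 : ξ = spl n ξ (fun i => ξ (n + i)) := (spl_shift n ξ).symm
  rw [h1, e, spl_lt hi]
  conv_rhs => rw [h2]
  rw [e, spl_lt hi]

/-- the group of the sections at the letter `x` of the elements fixing it -/
def sec (Γ : Subgroup (Equiv.Perm (ℕ → X))) (x : X) : Subgroup (Equiv.Perm (ℕ → X)) where
  carrier := {h | ∃ g ∈ Γ, ∀ ζ : ℕ → X, g (cons x ζ) = cons x (h ζ)}
  mul_mem' := by
    rintro a b ⟨g, hg, e⟩ ⟨g', hg', e'⟩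
    refine ⟨g * g', mul_mem hg hg', fun ζ => ?_⟩
    rw [Equiv.Perm.mul_apply, e', e, Equiv.Perm.mul_apply]
  one_mem' := ⟨1, one_mem _, fun ζ => rfl⟩
  inv_mem' := by
    rintro a ⟨g, hg, e⟩
    refine ⟨g⁻¹, inv_mem hg, fun ζ => ?_⟩
    rw [Equiv.Perm.inv_eq_iff_eq, e]
    simp

theorem mem_sec {Γ : Subgroup (Equiv.Perm (ℕ → X))} {x : X} {h : Equiv.Perm (ℕ → X)} :
    h ∈ sec Γ x ↔ ∃ g ∈ Γ, ∀ ζ : ℕ → X, g (cons x ζ) = cons x (h ζ) := Iff.rfl

theorem sec_le (hG : SS G) {Γ : Subgroup (Equiv.Perm (ℕ → X))} (hΓ : Γ ≤ G) (x : X) :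
    sec Γ x ≤ G := by
  rintro h ⟨g, hg, e⟩
  obtain ⟨y, k, hk, e'⟩ := hG g (hΓ hg) x
  have : h = k := by
    apply Equiv.ext
    intro ζ
    exact (cons_inj ((e ζ).symm.trans (e' ζ))).2
  rw [this]
  exact hk

/-- the group of the sections at the first `n` letters of `ξ` of the elements fixing them -/
def D (Γ : Subgroup (Equiv.Perm (ℕ → X))) (ξ : ℕ → X) : ℕ → Subgroup (Equiv.Perm (ℕ → X))
  | 0 => Γ
  | n + 1 => sec (D Γ ξ n) (ξ n)

theorem D_le (hG : SS G) {Γ : Subgroup (Equiv.Perm (ℕ → X))} (hΓ : Γ ≤ G) (ξ : ℕ → X) (n : ℕ) :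
    D Γ ξ n ≤ G := by
  induction n with
  | zero => exact hΓ
  | succ n ih => exact sec_le hG ih _

theorem D_congr (Γ : Subgroup (Equiv.Perm (ℕ → X))) {ξ ξ' : ℕ → X} {n : ℕ}
    (h : ∀ i < n, ξ i = ξ' i) : D Γ ξ n = D Γ ξ' n := by
  induction n with
  | zero => rfl
  | succ n ih =>
    change sec (D Γ ξ n) (ξ n) = sec (D Γ ξ' n) (ξ' n)
    rw [ih (fun i hi => h i (by omega)), h n (by omega)]

theorem D_add (Γ : Subgroup (Equiv.Perm (ℕ → X))) (ξ : ℕ → X) (n m : ℕ) :
    D Γ ξ (n + m) = D (D Γ ξ n) (fun i => ξ (n + i)) m := by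
  induction m with
  | zero => rfl
  | succ m ih =>
    change sec (D Γ ξ (n + m)) (ξ (n + m)) = sec (D (D Γ ξ n) (fun i => ξ (n + i)) m) (ξ (n + m))
    rw [ih]

theorem D_lift {Γ : Subgroup (Equiv.Perm (ℕ → X))} {ξ : ℕ → X} {n : ℕ}
    {h : Equiv.Perm (ℕ → X)} (hh : h ∈ D Γ ξ n) :
    ∃ g ∈ Γ, ∀ ζ : ℕ → X, g (spl n ξ ζ) = spl n ξ (h ζ) := by
  induction n generalizing h with
  | zero => exact ⟨h, hh, fun ζ => by rw [spl_zero, spl_zero]⟩
  | succ n ih =>
    obtain ⟨k, hk, e⟩ := mem_sec.1 hh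
    obtain ⟨g, hg, e'⟩ := ih hk
    refine ⟨g, hg, fun ζ => ?_⟩
    rw [spl_succ, e', e, spl_succ]

theorem D_mem (hG : SS G) {Γ : Subgroup (Equiv.Perm (ℕ → X))} (hΓ : Γ ≤ G) {ξ : ℕ → X} {n : ℕ}
    {g h : Equiv.Perm (ℕ → X)} (hg : g ∈ Γ)
    (e : ∀ ζ : ℕ → X, g (spl n ξ ζ) = spl n ξ (h ζ)) : h ∈ D Γ ξ n := by
  induction n generalizing h with
  | zero =>
    have : h = g := by
      apply Equiv.ext
      intro ζ
      have := e ζ
      rw [spl_zero, spl_zero] at this
      exact this.symm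
    rw [this]
    exact hg
  | succ n ih =>
    obtain ⟨ξ', k, hk, e'⟩ := SSn hG n g (hΓ hg) ξ
    have h1 : ∀ ζ : ℕ → X, (∀ i < n, ξ' i = ξ i) ∧ k (cons (ξ n) ζ) = cons (ξ n) (h ζ) := by
      intro ζ
      have h2 := e ζ
      rw [spl_succ, e', spl_succ] at h2
      exact spl_inj h2
    have h3 : k ∈ D Γ ξ n := by
      apply ih
      intro ζ
      rw [e']
      exact spl_congr (h1 ζ).1 _
    exact mem_sec.2 ⟨k, h3, fun ζ => (h1 ζ).2⟩

/-- pigeonhole on the first letter -/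
theorem period_of_sec [Fintype X] (hG : SS G) {Δ : Subgroup (Equiv.Perm (ℕ → X))} (hΔ : Δ ≤ G)
    {g : Equiv.Perm (ℕ → X)} (hg : g ∈ Δ) {x : X} (hx : sec Δ x = ⊥) (η : ℕ → X) :
    ∃ m, 1 ≤ m ∧ m ≤ Fintype.card X ∧ (g ^ m) (cons x η) = cons x η := by
  choose y h hh e using fun i : ℕ => hG (g ^ i) (hΔ (pow_mem hg i)) x
  have key : ∀ i j, i < j → y i = y j → (g ^ (j - i)) (cons x η) = cons x η := by
    intro i j hij hy
    have h1 : ∀ ζ : ℕ → X, (g ^ (j - i)) (cons x ζ) = cons x (((h i)⁻¹ * h j) ζ) := by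
      intro ζ
      apply (g ^ i).injective
      rw [e i, ← Equiv.Perm.mul_apply, ← pow_add, Nat.add_sub_cancel' hij.le, e j, hy]
      simp
    have h2 : (h i)⁻¹ * h j ∈ sec Δ x := mem_sec.2 ⟨g ^ (j - i), pow_mem hg _, h1⟩
    rw [hx, Subgroup.mem_bot] at h2
    rw [h1 η, h2]
    rfl
  obtain ⟨i, j, hij, hy⟩ := Fintype.exists_ne_map_eq_of_card_lt
    (fun i : Fin (Fintype.card X + 1) => y i) (by simp)
  rcases lt_or_gt_of_ne hij with h1 | h1
  · exact ⟨j - i, by have := Fin.lt_def.1 h1; omega, by omega, key i j h1 hy⟩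
  · exact ⟨i - j, by have := Fin.lt_def.1 h1; omega, by omega, key j i h1 hy.symm⟩

theorem pow_factorial {g : Equiv.Perm (ℕ → X)} {ξ : ℕ → X} {m N : ℕ} (h1 : 1 ≤ m) (h2 : m ≤ N)
    (h : (g ^ m) ξ = ξ) : (g ^ N.factorial) ξ = ξ := by
  obtain ⟨k, hk⟩ := Nat.dvd_factorial h1 h2
  rw [hk, pow_mul]
  clear hk
  induction k with
  | zero => rfl
  | succ k ih => rw [pow_succ, Equiv.Perm.mul_apply, h, ih]

theorem exists_child [Fintype X] (hG : SS G) (hT : ∀ g ∈ G, ∀ m : ℕ, m ≠ 0 → g ^ m = 1 → g = 1)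
    {Δ : Subgroup (Equiv.Perm (ℕ → X))} (hΔ : Δ ≤ G) (hne : Δ ≠ ⊥) : ∃ x, sec Δ x ≠ ⊥ := by
  by_contra hcon
  push Not at hcon
  apply hne
  rw [Subgroup.eq_bot_iff_forall]
  intro g hg
  apply hT g (hΔ hg) _ (Nat.factorial_ne_zero (Fintype.card X))
  apply Equiv.ext
  intro ξ
  obtain ⟨m, h1, h2, h3⟩ := period_of_sec hG hΔ hg (hcon (ξ 0)) (fun i => ξ (i + 1))
  rw [cons_eta] at h3
  exact pow_factorial h1 h2 h3

/-- the words all of whose initial words have nontrivial section groups -/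
def Z (Γ : Subgroup (Equiv.Perm (ℕ → X))) : Set (ℕ → X) := {ξ | ∀ n, D Γ ξ n ≠ ⊥}

theorem Z_nonempty [Fintype X] (hG : SS G)
    (hT : ∀ g ∈ G, ∀ m : ℕ, m ≠ 0 → g ^ m = 1 → g = 1)
    {Δ : Subgroup (Equiv.Perm (ℕ → X))} (hΔ : Δ ≤ G) (hne : Δ ≠ ⊥) : ∃ η, η ∈ Z Δ := by
  choose c hc using fun p : {Δ : Subgroup (Equiv.Perm (ℕ → X)) // Δ ≤ G ∧ Δ ≠ ⊥} =>
    exists_child hG hT p.2.1 p.2.2
  let f : ℕ → {Δ : Subgroup (Equiv.Perm (ℕ → X)) // Δ ≤ G ∧ Δ ≠ ⊥} := fun n =>
    Nat.rec ⟨Δ, hΔ, hne⟩ (fun _ p => ⟨sec p.1 (c p), sec_le hG p.2.1 _, hc p⟩) n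
  have hf : ∀ n, D Δ (fun n => c (f n)) n = (f n).1 := by
    intro n
    induction n with
    | zero => rfl
    | succ n ih =>
      change sec (D Δ (fun n => c (f n)) n) (c (f n)) = sec (f n).1 (c (f n))
      rw [ih]
  refine ⟨fun n => c (f n), fun n => ?_⟩
  rw [hf]
  exact (f n).2.2

theorem spl_mem_Z {Γ : Subgroup (Equiv.Perm (ℕ → X))} {ξ : ℕ → X} {n : ℕ}
    (h : ∀ m ≤ n, D Γ ξ m ≠ ⊥) {η : ℕ → X} (hη : η ∈ Z (D Γ ξ n)) : spl n ξ η ∈ Z Γ := by
  intro m
  rcases le_total m n with hm | hm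
  · rw [D_congr Γ (ξ' := ξ) (fun i hi => spl_lt (by omega) _ _)]
    exact h m hm
  · obtain ⟨k, rfl⟩ := Nat.exists_eq_add_of_le hm
    rw [D_add, D_congr Γ (ξ' := ξ) (fun i hi => spl_lt hi _ _)]
    have : (fun i => spl n ξ η (n + i)) = η := by
      funext i
      exact spl_add n i ξ η
    rw [this]
    exact hη k

/-- the orbit of `ξ` has more than `N` elements -/
def Big (G : Subgroup (Equiv.Perm (ℕ → X))) (N : ℕ) (ξ : ℕ → X) : Prop :=
  ∃ t : Fin (N + 1) → Equiv.Perm (ℕ → X), (∀ i, t i ∈ G) ∧ Function.Injective (fun i => t i ξ)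

theorem Big_open (hG : SS G) {N : ℕ} {ξ : ℕ → X} (h : Big G N ξ) :
    ∃ n, ∀ η : ℕ → X, (∀ i < n, η i = ξ i) → Big G N η := by
  obtain ⟨t, ht, hinj⟩ := h
  have h1 : ∀ p : Fin (N + 1) × Fin (N + 1), ∃ c : ℕ, p.1 ≠ p.2 → t p.1 ξ c ≠ t p.2 ξ c := by
    intro p
    by_cases hp : p.1 = p.2
    · exact ⟨0, fun h => absurd hp h⟩
    · have : t p.1 ξ ≠ t p.2 ξ := fun h => hp (hinj h)
      obtain ⟨c, hc⟩ := Function.ne_iff.1 this
      exact ⟨c, fun _ => hc⟩
  choose c hc using h1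
  refine ⟨Finset.univ.sup c + 1, fun η hη => ⟨t, ht, ?_⟩⟩
  intro i j hij
  by_contra hne
  have h2 : c (i, j) < Finset.univ.sup c + 1 :=
    Nat.lt_succ_of_le (Finset.le_sup (f := c) (Finset.mem_univ (i, j)))
  apply hc (i, j) hne
  have h3 := agree hG (ht i) hη _ h2
  have h4 := agree hG (ht j) hη _ h2
  have h5 : t i η (c (i, j)) = t j η (c (i, j)) := congrFun hij (c (i, j))
  rw [← h3, ← h4, h5]

theorem not_Big_of_finite {N : ℕ} {ξ : ℕ → X} {S : Set (ℕ → X)} (hS : S.Finite)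
    (hN : S.ncard ≤ N) (hGS : ∀ g ∈ G, g ξ ∈ S) : ¬ Big G N ξ := by
  rintro ⟨t, ht, hinj⟩
  have h1 : (Set.range (fun i => t i ξ)).ncard ≤ S.ncard :=
    Set.ncard_le_ncard (by rintro _ ⟨i, rfl⟩; exact hGS _ (ht i)) hS
  rw [Set.ncard_range_of_injective hinj, Nat.card_eq_fintype_card, Fintype.card_fin] at h1
  omega

theorem period_of_not_Big {N : ℕ} {ξ : ℕ → X} (h : ¬ Big G N ξ) {g : Equiv.Perm (ℕ → X)}
    (hg : g ∈ G) : ∃ m, 1 ≤ m ∧ m ≤ N ∧ (g ^ m) ξ = ξ := by
  have h1 : ¬ Function.Injective (fun i : Fin (N + 1) => (g ^ (i : ℕ)) ξ) := by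
    intro hinj
    exact h ⟨fun i => g ^ (i : ℕ), fun i => pow_mem hg _, hinj⟩
  have key : ∀ i j : ℕ, i < j → (g ^ i) ξ = (g ^ j) ξ → (g ^ (j - i)) ξ = ξ := by
    intro i j hij he
    apply (g ^ i).injective
    rw [← Equiv.Perm.mul_apply, ← pow_add, Nat.add_sub_cancel' hij.le, he]
  rw [Function.Injective] at h1
  push Not at h1
  obtain ⟨i, j, he, hij⟩ := h1
  rcases lt_or_gt_of_ne hij with h2 | h2
  · exact ⟨j - i, by have := Fin.lt_def.1 h2; omega, by omega, key i j h2 he⟩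
  · exact ⟨i - j, by have := Fin.lt_def.1 h2; omega, by omega, key j i h2 he.symm⟩

/-- the Baire category argument -/
theorem baire (hG : SS G) (hfin : ∀ ξ : ℕ → X, ∃ N, ¬ Big G N ξ) {Z : Set (ℕ → X)}
    (hZ : Z.Nonempty) :
    ∃ N : ℕ, ∃ ξ ∈ Z, ∃ n : ℕ, ∀ η ∈ Z, (∀ i < n, η i = ξ i) → ¬ Big G N η := by
  by_contra hcon
  push Not at hcon
  have step : ∀ (k : ℕ) (p : (ℕ → X) × ℕ), p.1 ∈ Z → ∃ p' : (ℕ → X) × ℕ, p'.1 ∈ Z ∧
      (∀ i < p.2, p'.1 i = p.1 i) ∧ p.2 < p'.2 ∧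
      ∀ η : ℕ → X, (∀ i < p'.2, η i = p'.1 i) → Big G k η := by
    intro k p hp
    obtain ⟨η, hη, h1, h2⟩ := hcon k p.1 hp p.2
    obtain ⟨n, hn⟩ := Big_open hG h2
    refine ⟨(η, n + p.2 + 1), hη, h1, by simp only; omega, fun η' h' => hn η' (fun i hi => ?_)⟩
    exact h' i (by simp only; omega)
  choose F hF1 hF2 hF3 hF4 using step
  obtain ⟨ξ₀, hξ₀⟩ := hZ
  let s : ℕ → {p : (ℕ → X) × ℕ // p.1 ∈ Z} := fun n =>
    Nat.rec ⟨(ξ₀, 0), hξ₀⟩ (fun k p => ⟨F k p.1 p.2, hF1 k p.1 p.2⟩) n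
  have hs1 : ∀ k, ∀ i < (s k).1.2, (s (k + 1)).1.1 i = (s k).1.1 i := fun k =>
    hF2 k (s k).1 (s k).2
  have hs2 : ∀ k, (s k).1.2 < (s (k + 1)).1.2 := fun k => hF3 k (s k).1 (s k).2
  have hs3 : ∀ k, ∀ η : ℕ → X, (∀ i < (s (k + 1)).1.2, η i = (s (k + 1)).1.1 i) → Big G k η :=
    fun k => hF4 k (s k).1 (s k).2
  have hb : ∀ k, k ≤ (s k).1.2 := by
    intro k
    induction k with
    | zero => exact Nat.zero_le _
    | succ k ih => exact lt_of_le_of_lt ih (hs2 k)
  have hmono : ∀ k d, (s k).1.2 ≤ (s (k + d)).1.2 := by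
    intro k d
    induction d with
    | zero => exact le_rfl
    | succ d ih => exact ih.trans (hs2 (k + d)).le
  have hchain : ∀ k d, ∀ i < (s k).1.2, (s (k + d)).1.1 i = (s k).1.1 i := by
    intro k d
    induction d with
    | zero => intro i _; rfl
    | succ d ih =>
      intro i hi
      rw [← ih i hi]
      exact hs1 (k + d) i (lt_of_lt_of_le hi (hmono k d))
  obtain ⟨N, hN⟩ := hfin (fun i => (s (i + 1)).1.1 i)
  apply hN
  apply hs3 N
  intro i hi
  rcases le_total (N + 1) (i + 1) with h | h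
  · obtain ⟨d, hd⟩ := Nat.exists_eq_add_of_le h
    have := hchain (N + 1) d i hi
    rw [← hd] at this
    exact this
  · obtain ⟨d, hd⟩ := Nat.exists_eq_add_of_le h
    have := hchain (i + 1) d i (lt_of_lt_of_le (Nat.lt_succ_self i) (hb (i + 1)))
    rw [← hd] at this
    exact this.symm

/-- A self-similar torsion-free group all of whose orbits on the infinite words are finite is
trivial. -/
theorem main [Fintype X] (hG : SS G) (hT : ∀ g ∈ G, ∀ m : ℕ, m ≠ 0 → g ^ m = 1 → g = 1)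
    (hfin : ∀ ξ : ℕ → X, ∃ N, ¬ Big G N ξ) : G = ⊥ := by
  by_contra hne
  obtain ⟨N, ξ, hξ, n, hn⟩ := baire hG hfin (Z := Z G) (Z_nonempty hG hT le_rfl hne)
  have hΔ : D G ξ n ≤ G := D_le hG le_rfl ξ n
  apply hξ n
  rw [Subgroup.eq_bot_iff_forall]
  intro g hg
  -- a power of `g` fixes `Z (D G ξ n)`
  have h1 : ∀ η ∈ Z (D G ξ n), (g ^ N.factorial) η = η := by
    intro η hη
    obtain ⟨g', hg', e⟩ := D_lift hg
    have h2 := hn (spl n ξ η) (spl_mem_Z (fun m _ => hξ m) hη) (fun i hi => spl_lt hi _ _)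
    obtain ⟨m, hm1, hm2, hm3⟩ := period_of_not_Big h2 hg'
    have e' : ∀ k : ℕ, (g' ^ k) (spl n ξ η) = spl n ξ ((g ^ k) η) := by
      intro k
      induction k with
      | zero => rfl
      | succ k ih => rw [pow_succ', Equiv.Perm.mul_apply, ih, e, pow_succ', Equiv.Perm.mul_apply]
    rw [e'] at hm3
    exact pow_factorial hm1 hm2 (spl_inj hm3).2
  apply hT g (hΔ hg) _ (Nat.factorial_ne_zero N)
  have hkΔ : g ^ N.factorial ∈ D G ξ n := pow_mem hg _
  obtain ⟨k, hk⟩ : ∃ k, k = g ^ N.factorial := ⟨_, rfl⟩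
  rw [← hk] at h1 hkΔ ⊢
  -- `k` has bounded periods
  apply hT k (hΔ hkΔ) _ (Nat.factorial_ne_zero (Fintype.card X + 1))
  apply Equiv.ext
  intro η
  by_cases hη : η ∈ Z (D G ξ n)
  · exact pow_factorial (m := 1) le_rfl (by omega) (by rw [pow_one]; exact h1 η hη)
  · have h3 : ∃ j, D (D G ξ n) η j = ⊥ := by
      by_contra hcon
      push Not at hcon
      exact hη hcon
    classical
    obtain ⟨w, hw⟩ : ∃ w, Nat.find h3 = w + 1 := by
      refine Nat.exists_eq_succ_of_ne_zero (fun h0 => ?_)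
      have := Nat.find_spec h3
      rw [h0] at this
      exact hξ n this
    have h4 : D (D G ξ n) η (w + 1) = ⊥ := by
      rw [← hw]
      exact Nat.find_spec h3
    have h5 : ∀ m ≤ w, D (D G ξ n) η m ≠ ⊥ := fun m hm => Nat.find_min h3 (by omega)
    have hE : D (D G ξ n) η w ≤ G := D_le hG hΔ η w
    obtain ⟨θ, hθ⟩ := Z_nonempty hG hT hE (h5 w le_rfl)
    have h6 := h1 _ (spl_mem_Z h5 hθ)
    obtain ⟨η', k', hk', e⟩ := SSn hG w k (hΔ hkΔ) η
    have h7 : ∀ i < w, η' i = η i := by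
      rw [e] at h6
      exact (spl_inj h6).1
    have e1 : ∀ ζ : ℕ → X, k (spl w η ζ) = spl w η (k' ζ) := by
      intro ζ
      rw [e]
      exact spl_congr h7 _
    have h8 : k' ∈ D (D G ξ n) η w := D_mem hG hΔ hkΔ e1
    obtain ⟨m, hm1, hm2, hm3⟩ := period_of_sec hG hE h8 (x := η w) h4
      (fun i => η (w + (i + 1)))
    have e2 : ∀ j : ℕ, ∀ ζ : ℕ → X, (k ^ j) (spl w η ζ) = spl w η ((k' ^ j) ζ) := by
      intro j ζ
      induction j with
      | zero => rfl
      | succ j ih => rw [pow_succ', Equiv.Perm.mul_apply, ih, e1, pow_succ', Equiv.Perm.mul_apply]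
    have e3 : cons (η w) (fun i => η (w + (i + 1))) = fun i => η (w + i) := by
      funext i
      cases i <;> rfl
    rw [e3] at hm3
    have h9 : (k ^ m) η = η := by
      have := e2 m (fun i => η (w + i))
      rw [hm3, spl_shift] at this
      exact this
    exact pow_factorial hm1 (by omega) h9

end selfsimilar

theorem infinite_orbit {Q X : Type} [Finite X] (M : Mealy Q X) (hM : M.Invertible)
    (hN : Nontrivial M.group) (hT : ∀ g ∈ M.group, ∀ m : ℕ, m ≠ 0 → g ^ m = 1 → g = 1) :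
    ∃ ξ : ℕ → X, (M.orbit ξ).Infinite := by
  have := Fintype.ofFinite X
  by_contra hcon
  push Not at hcon
  have h1 : M.group = ⊥ := by
    apply main (group_SS M hM) hT
    intro ξ
    have hf : (M.orbit ξ).Finite := hcon ξ
    exact ⟨_, not_Big_of_finite hf le_rfl (fun g hg => ⟨g, hg, rfl⟩)⟩
  rw [Subgroup.nontrivial_iff_ne_bot] at hN
  exact hN h1

/-- **Infinite boundary orbits.** (1) The states of an invertible automaton act as bijections.
(2) Every nontrivial torsion-free group generated by an invertible automaton over a finite alphabet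
has an infinite orbit on the infinite words. (3) Q1: if an automaton of the class `S_a` generates a
nontrivial free group, then some point of the boundary has an infinite Schreier graph. -/
theorem all_parts :
    (∀ (Q X : Type) (M : Mealy Q X), M.Invertible → ∀ q : Q, Function.Bijective (M.act q)) ∧
    (∀ (Q X : Type) [Finite X] (M : Mealy Q X), M.Invertible → Nontrivial M.group →
      (∀ g ∈ M.group, ∀ m : ℕ, m ≠ 0 → g ^ m = 1 → g = 1) →
      ∃ ξ : ℕ → X, (M.orbit ξ).Infinite) ∧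
    (∀ (Q X : Type) [Finite Q] [Finite X] (M : Mealy Q X), 2 ≤ Nat.card X → M.InSa →
      Nontrivial M.group → IsFreeGroup M.group → ∃ ξ : ℕ → X, (M.orbit ξ).Infinite) := by
  refine ⟨fun Q X M hM q => act_bijective M hM q,
    fun Q X _ M hM hN hT => infinite_orbit M hM hN hT, ?_⟩
  intro Q X _ _ M _ hM hN hF
  refine infinite_orbit M hM.1 hN ?_
  intro g hg m hm h
  have e := IsFreeGroup.toFreeGroup M.group
  have h1 : e ⟨g, hg⟩ = 1 := by
    apply pow_left_injective hm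
    change e ⟨g, hg⟩ ^ m = 1 ^ m
    rw [one_pow, ← map_pow]
    have h2 : (⟨g, hg⟩ : M.group) ^ m = 1 := Subtype.ext h
    rw [h2, map_one]
  have h3 : (⟨g, hg⟩ : M.group) = 1 := e.injective (h1.trans (map_one e).symm)
  exact congrArg Subtype.val h3

end Pool.Agent.Helper367_IO
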